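import Pool.Agent.Y472.K.Defs

/-!
# TK-QB, TK-QDA: the product `Pq`
-/

set_option autoImplicit false

namespace Pool.Agent.Y220.TK

open Finset Filter Topology MeasureTheory Pool.Agent.Y472.K
open scoped Real

/-- the factor `2 cos (x + i y) - 2 cos (2 π t)` -/
noncomputable def gg (x y t : ℝ) : ℂ :=
  2 * Complex.cos (x + y * Complex.I) - 2 * (Real.cos (2 * π * t) : ℂ)

theorem gg_eq (x y t : ℝ) : gg x y t =
    ((2 * (Real.cos x * Real.cosh y) - 2 * Real.cos (2 * π * t) : ℝ) : ℂ) +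
      ((-(2 * (Real.sin x * Real.sinh y)) : ℝ) : ℂ) * Complex.I := by
  rw [gg, Complex.cos_add_mul_I]
  push_cast
  ring

theorem gg_re (x y t : ℝ) :
    (gg x y t).re = 2 * (Real.cos x * Real.cosh y) - 2 * Real.cos (2 * π * t) := by
  rw [gg_eq, Complex.add_re, Complex.re_ofReal_mul, Complex.ofReal_re, Complex.I_re]
  ring

theorem gg_im (x y t : ℝ) :
    (gg x y t).im = -(2 * (Real.sin x * Real.sinh y)) := by
  rw [gg_eq, Complex.add_im, Complex.im_ofReal_mul, Complex.ofReal_im, Complex.I_im]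
  ring

theorem gg_lower (x y t : ℝ) : 2 * (Real.cosh y - 1) ≤ ‖gg x y t‖ := by
  have hY : 1 ≤ Real.cosh y := Real.one_le_cosh y
  have h1 : (2 * (Real.cosh y - 1)) ^ 2 ≤ ‖gg x y t‖ ^ 2 := by
    rw [Complex.sq_norm, Complex.normSq_apply, gg_re, gg_im]
    have h2 : Real.sin x ^ 2 = 1 - Real.cos x ^ 2 := Real.sin_sq x
    have h3 : Real.sinh y ^ 2 = Real.cosh y ^ 2 - 1 := Real.sinh_sq y
    set X := Real.cos x
    set Y := Real.cosh y
    set c := Real.cos (2 * π * t)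
    have hX : |X| ≤ 1 := Real.abs_cos_le_one x
    have hc : |c| ≤ 1 := Real.abs_cos_le_one _
    have hcX : c * X ≤ 1 := by
      calc c * X ≤ |c * X| := le_abs_self _
        _ = |c| * |X| := abs_mul _ _
        _ ≤ 1 * 1 := by gcongr
        _ = 1 := one_mul 1
    have e : (2 * (X * Y) - 2 * c) * (2 * (X * Y) - 2 * c) +
        -(2 * (Real.sin x * Real.sinh y)) * -(2 * (Real.sin x * Real.sinh y)) =
        4 * ((X * Y - c) ^ 2 + Real.sin x ^ 2 * Real.sinh y ^ 2) := by ring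
    rw [e, h2, h3]
    nlinarith [mul_nonneg (sub_nonneg.2 hY) (sub_nonneg.2 hcX), sq_nonneg (X - c)]
  exact le_of_sq_le_sq h1 (norm_nonneg _)

theorem m_pos {y : ℝ} (hy : 0 < y) : 0 < 2 * (Real.cosh y - 1) := by
  have : 1 < Real.cosh y := Real.one_lt_cosh.2 hy.ne'
  linarith

theorem gg_pos {y : ℝ} (hy : 0 < y) (x t : ℝ) : 0 < ‖gg x y t‖ :=
  lt_of_lt_of_le (m_pos hy) (gg_lower x y t)

theorem gg_ne {y : ℝ} (hy : 0 < y) (x t : ℝ) : gg x y t ≠ 0 :=
  norm_pos_iff.1 (gg_pos hy x t)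

theorem gg_sub (x y s t : ℝ) : ‖gg x y s - gg x y t‖ ≤ 4 * π * |s - t| := by
  have e : gg x y s - gg x y t =
      ((2 * (Real.cos (2 * π * t) - Real.cos (2 * π * s)) : ℝ) : ℂ) := by
    rw [gg, gg]
    push_cast
    ring
  rw [e, Complex.norm_real, Real.norm_eq_abs, abs_mul, abs_two]
  have h := Real.abs_cos_sub_cos_le (2 * π * t) (2 * π * s)
  have h2 : |2 * π * t - 2 * π * s| = 2 * π * |s - t| := by
    rw [← mul_sub, abs_mul, abs_of_pos (by positivity : (0 : ℝ) < 2 * π), abs_sub_comm]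
  rw [h2] at h
  linarith

theorem lf_le {y : ℝ} (hy : 0 < y) (x s t : ℝ) :
    lf x y s ≤ lf x y t + 4 * π / (2 * (Real.cosh y - 1)) * |s - t| := by
  have e1 : lf x y s = Real.log ‖gg x y s‖ := rfl
  have e2 : lf x y t = Real.log ‖gg x y t‖ := rfl
  rw [e1, e2]
  have hs := gg_pos hy x s
  have ht := gg_pos hy x t
  have hm := m_pos hy
  have h1 : Real.log (‖gg x y s‖ / ‖gg x y t‖) ≤ ‖gg x y s‖ / ‖gg x y t‖ - 1 :=
    Real.log_le_sub_one_of_pos (div_pos hs ht)
  rw [Real.log_div hs.ne' ht.ne'] at h1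
  have h2 : ‖gg x y s‖ / ‖gg x y t‖ - 1 = (‖gg x y s‖ - ‖gg x y t‖) / ‖gg x y t‖ := by
    field_simp
  have h3 : (‖gg x y s‖ - ‖gg x y t‖) / ‖gg x y t‖ ≤ (4 * π * |s - t|) / ‖gg x y t‖ := by
    gcongr
    exact (norm_sub_norm_le _ _).trans (gg_sub x y s t)
  have h4 : (4 * π * |s - t|) / ‖gg x y t‖ ≤ (4 * π * |s - t|) / (2 * (Real.cosh y - 1)) := by
    gcongr
    exact gg_lower x y t
  have h5 : (4 * π * |s - t|) / (2 * (Real.cosh y - 1)) =
      4 * π / (2 * (Real.cosh y - 1)) * |s - t| := by ring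
  linarith

theorem continuous_gg (x y : ℝ) : Continuous (gg x y) := by
  unfold gg
  fun_prop

theorem continuous_lf {y : ℝ} (hy : 0 < y) (x : ℝ) : Continuous (lf x y) := by
  have e : lf x y = fun t => Real.log ‖gg x y t‖ := rfl
  rw [e]
  exact (continuous_gg x y).norm.log fun t => (gg_pos hy x t).ne'

theorem Pq_eq (N j i : ℕ) (x y : ℝ) :
    Pq N j i (x + y * Complex.I) = ∏ s ∈ Ioc j i, gg x y ((s : ℝ) / N) := by
  unfold Pq gg
  refine Finset.prod_congr rfl fun s _ => ?_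
  rw [mul_div_assoc]

theorem sum_lf_le {y : ℝ} (hy : 0 < y) (x : ℝ) (N : ℕ) (hN : 1 ≤ N) (j i : ℕ) (hji : j ≤ i) :
    ∑ s ∈ Ioc j i, lf x y ((s : ℝ) / N) ≤
      (N * ∫ t in ((j : ℝ) / N)..((i : ℝ) / N), lf x y t) +
        ((i : ℝ) - j) * (4 * π / (2 * (Real.cosh y - 1)) / N) := by
  have hN' : (0 : ℝ) < N := by exact_mod_cast hN
  have hm := m_pos hy
  have hc := continuous_lf hy x
  induction i, hji using Nat.le_induction with
  | base => simp
  | succ i hi ih =>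
    rw [Finset.sum_Ioc_succ_top (by omega : j ≤ i)]
    have hii : ∀ a b : ℝ, IntervalIntegrable (lf x y) volume a b := fun a b =>
      hc.intervalIntegrable a b
    have h1 : ∫ t in ((j : ℝ) / N)..(((i + 1 : ℕ) : ℝ) / N), lf x y t =
        (∫ t in ((j : ℝ) / N)..((i : ℝ) / N), lf x y t) +
          ∫ t in ((i : ℝ) / N)..(((i + 1 : ℕ) : ℝ) / N), lf x y t :=
      (intervalIntegral.integral_add_adjacent_intervals (hii _ _) (hii _ _)).symm
    rw [h1]
    have hle : (i : ℝ) / N ≤ ((i + 1 : ℕ) : ℝ) / N := by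
      gcongr
      simp
    have hlen : ((i + 1 : ℕ) : ℝ) / N - (i : ℝ) / N = 1 / N := by
      push_cast
      ring
    have h2 : ∫ t in ((i : ℝ) / N)..(((i + 1 : ℕ) : ℝ) / N),
        (lf x y (((i + 1 : ℕ) : ℝ) / N) - 4 * π / (2 * (Real.cosh y - 1)) / N) ≤
        ∫ t in ((i : ℝ) / N)..(((i + 1 : ℕ) : ℝ) / N), lf x y t := by
      refine intervalIntegral.integral_mono_on hle (by simp) (hii _ _) ?_
      intro t ht
      have h3 := lf_le hy x (((i + 1 : ℕ) : ℝ) / N) t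
      have h4 : |((i + 1 : ℕ) : ℝ) / N - t| ≤ 1 / N := by
        rw [abs_le]
        constructor
        · have := ht.2
          have h0 : (0 : ℝ) ≤ 1 / N := by positivity
          linarith
        · have := ht.1
          linarith
      have h5 : 4 * π / (2 * (Real.cosh y - 1)) * |((i + 1 : ℕ) : ℝ) / N - t| ≤
          4 * π / (2 * (Real.cosh y - 1)) * (1 / N) := by
        gcongr
      have h6 : 4 * π / (2 * (Real.cosh y - 1)) * (1 / N) =
        4 * π / (2 * (Real.cosh y - 1)) / N := by ring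
      linarith
    rw [intervalIntegral.integral_const, hlen, smul_eq_mul] at h2
    have h7 : (N : ℝ) * (1 / N * (lf x y (((i + 1 : ℕ) : ℝ) / N) -
        4 * π / (2 * (Real.cosh y - 1)) / N)) = lf x y (((i + 1 : ℕ) : ℝ) / N) -
        4 * π / (2 * (Real.cosh y - 1)) / N := by
      rw [← mul_assoc, mul_one_div_cancel hN'.ne', one_mul]
    have h8 := mul_le_mul_of_nonneg_left h2 hN'.le
    rw [h7] at h8
    have h9 : (((i + 1 : ℕ) : ℝ) - j) * (4 * π / (2 * (Real.cosh y - 1)) / N) =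
        ((i : ℝ) - j) * (4 * π / (2 * (Real.cosh y - 1)) / N) +
          4 * π / (2 * (Real.cosh y - 1)) / N := by
      push_cast
      ring
    rw [h9, mul_add]
    linarith

theorem qb : S_QB := by
  intro y hy
  refine ⟨Real.exp (4 * π / (2 * (Real.cosh y - 1))), Real.exp_pos _, ?_⟩
  intro N hN j i hji hiN x
  have hN' : (0 : ℝ) < N := by exact_mod_cast hN
  have hm := m_pos hy
  rw [Pq_eq, norm_prod]
  have h1 : ∏ s ∈ Ioc j i, ‖gg x y ((s : ℝ) / N)‖ =
      Real.exp (∑ s ∈ Ioc j i, lf x y ((s : ℝ) / N)) := by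
    rw [Real.exp_sum]
    refine Finset.prod_congr rfl fun s _ => ?_
    exact (Real.exp_log (gg_pos hy x _)).symm
  rw [h1, ← Real.exp_add]
  apply Real.exp_le_exp.2
  have h2 := sum_lf_le hy x N hN j i hji
  have h3 : ((i : ℝ) - j) * (4 * π / (2 * (Real.cosh y - 1)) / N) ≤
      N * (4 * π / (2 * (Real.cosh y - 1)) / N) := by
    have h4 : (i : ℝ) ≤ N := by exact_mod_cast hiN
    have h5 : (0 : ℝ) ≤ j := Nat.cast_nonneg _
    gcongr
    linarith
  have h6 : N * (4 * π / (2 * (Real.cosh y - 1)) / N) = 4 * π / (2 * (Real.cosh y - 1)) := by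
    field_simp
  linarith

/-! ### The trapezoidal rule -/

theorem trap {f f1 f2 : ℝ → ℂ} {K : ℝ} (h1 : ∀ t, HasDerivAt f (f1 t) t)
    (h2 : ∀ t, HasDerivAt f1 (f2 t) t) (hK : ∀ t, ‖f2 t‖ ≤ K) (a h : ℝ) (hh : 0 ≤ h) :
    ‖(∫ t in a..(a + h), f t) - ((h / 2 : ℝ) : ℂ) * (f a + f (a + h))‖ ≤ K * h ^ 3 := by
  have hK0 : 0 ≤ K := (norm_nonneg _).trans (hK 0)
  have hfc : Continuous f := continuous_iff_continuousAt.2 fun t => (h1 t).continuousAt
  -- the first remainder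
  have hf : ∀ u, HasDerivAt (fun u : ℝ => f (a + u)) (f1 (a + u)) u := by
    intro u
    exact (h1 (a + u)).comp_const_add a u
  have hf1 : ∀ u, HasDerivAt (fun u : ℝ => f1 (a + u)) (f2 (a + u)) u := by
    intro u
    exact (h2 (a + u)).comp_const_add a u
  have hR : ∀ u ∈ Set.Icc (0 : ℝ) h, ‖f (a + u) - f a - (u : ℂ) * f1 (a + u)‖ ≤ K * h ^ 2 := by
    intro u hu
    have hd : ∀ v ∈ Set.Icc (0 : ℝ) h, HasDerivWithinAt
        (fun v : ℝ => f (a + v) - f a - (v : ℂ) * f1 (a + v))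
        (-((v : ℂ) * f2 (a + v))) (Set.Icc 0 h) v := by
      intro v _
      have h3 : HasDerivAt (fun v : ℝ => (v : ℂ)) 1 v := by
        simpa using (hasDerivAt_id v).ofReal_comp
      have h4 := ((hf v).sub_const (f a)).sub (h3.mul (hf1 v))
      refine (h4.congr_deriv ?_).hasDerivWithinAt
      ring
    have hb : ∀ v ∈ Set.Ico (0 : ℝ) h, ‖-((v : ℂ) * f2 (a + v))‖ ≤ h * K := by
      intro v hv
      rw [norm_neg, norm_mul, Complex.norm_real, Real.norm_eq_abs, abs_of_nonneg hv.1]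
      exact mul_le_mul hv.2.le (hK _) (norm_nonneg _) hh
    have h5 := norm_image_sub_le_of_norm_deriv_le_segment' hd hb u hu
    simp only [add_zero, sub_self, Complex.ofReal_zero, zero_mul, sub_zero] at h5
    refine h5.trans ?_
    have : h * K * u ≤ h * K * h := mul_le_mul_of_nonneg_left hu.2 (by positivity)
    nlinarith
  -- the second remainder
  have hI : ∀ u, HasDerivAt (fun u : ℝ => ∫ t in a..(a + u), f t) (f (a + u)) u := by
    intro u
    have h6 : HasDerivAt (fun w : ℝ => ∫ t in a..w, f t) (f (a + u)) (a + u) :=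
      intervalIntegral.integral_hasDerivAt_right (hfc.intervalIntegrable _ _)
        (hfc.stronglyMeasurableAtFilter _ _) hfc.continuousAt
    exact h6.comp_const_add a u
  have hd : ∀ v ∈ Set.Icc (0 : ℝ) h, HasDerivWithinAt
      (fun v : ℝ => (∫ t in a..(a + v), f t) - ((v / 2 : ℝ) : ℂ) * (f a + f (a + v)))
      ((f (a + v) - f a - (v : ℂ) * f1 (a + v)) / 2) (Set.Icc 0 h) v := by
    intro v _
    have h3 : HasDerivAt (fun v : ℝ => ((v / 2 : ℝ) : ℂ)) (1 / 2) v := by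
      have := ((hasDerivAt_id v).div_const 2).ofReal_comp
      simpa using this
    have h4 := (hI v).sub (h3.mul ((hf v).const_add (f a)))
    refine (h4.congr_deriv ?_).hasDerivWithinAt
    push_cast
    ring
  have hb : ∀ v ∈ Set.Ico (0 : ℝ) h,
      ‖(f (a + v) - f a - (v : ℂ) * f1 (a + v)) / 2‖ ≤ K * h ^ 2 / 2 := by
    intro v hv
    rw [norm_div, Complex.norm_two]
    have := hR v ⟨hv.1, hv.2.le⟩
    gcongr
  have h5 := norm_image_sub_le_of_norm_deriv_le_segment' hd hb h ⟨hh, le_rfl⟩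
  simp only [add_zero, intervalIntegral.integral_same, zero_div, Complex.ofReal_zero, zero_mul,
    sub_zero] at h5
  refine h5.trans ?_
  have : 0 ≤ K * h ^ 3 := by positivity
  nlinarith

theorem trap_sum {f f1 f2 : ℝ → ℂ} {K : ℝ} (h1 : ∀ t, HasDerivAt f (f1 t) t)
    (h2 : ∀ t, HasDerivAt f1 (f2 t) t) (hK : ∀ t, ‖f2 t‖ ≤ K) (N : ℕ) (hN : 1 ≤ N) (j i : ℕ)
    (hji : j ≤ i) :
    ‖(∑ s ∈ Ioc j i, f ((s : ℝ) / N)) - (N * ∫ t in ((j : ℝ) / N)..((i : ℝ) / N), f t) -
      (f ((i : ℝ) / N) - f ((j : ℝ) / N)) / 2‖ ≤ ((i : ℝ) - j) * (K / N ^ 2) := by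
  have hN' : (0 : ℝ) < N := by exact_mod_cast hN
  have hNc : (N : ℂ) ≠ 0 := by
    have : N ≠ 0 := by omega
    exact_mod_cast this
  have hfc : Continuous f := continuous_iff_continuousAt.2 fun t => (h1 t).continuousAt
  induction i, hji using Nat.le_induction with
  | base => simp
  | succ i hi ih =>
    rw [Finset.sum_Ioc_succ_top (by omega : j ≤ i)]
    have hii : ∀ a b : ℝ, IntervalIntegrable f volume a b := fun a b =>
      hfc.intervalIntegrable a b
    have h3 : ∫ t in ((j : ℝ) / N)..(((i + 1 : ℕ) : ℝ) / N), f t =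
        (∫ t in ((j : ℝ) / N)..((i : ℝ) / N), f t) +
          ∫ t in ((i : ℝ) / N)..(((i + 1 : ℕ) : ℝ) / N), f t :=
      (intervalIntegral.integral_add_adjacent_intervals (hii _ _) (hii _ _)).symm
    have h4 := trap h1 h2 hK ((i : ℝ) / N) (1 / N) (by positivity)
    have h5 : (i : ℝ) / N + 1 / N = ((i + 1 : ℕ) : ℝ) / N := by
      push_cast
      ring
    rw [h5] at h4
    have h6 : (∑ s ∈ Ioc j i, f ((s : ℝ) / N)) + f (((i + 1 : ℕ) : ℝ) / N) -
        (N * ∫ t in ((j : ℝ) / N)..(((i + 1 : ℕ) : ℝ) / N), f t) -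
        (f (((i + 1 : ℕ) : ℝ) / N) - f ((j : ℝ) / N)) / 2 =
        ((∑ s ∈ Ioc j i, f ((s : ℝ) / N)) - (N * ∫ t in ((j : ℝ) / N)..((i : ℝ) / N), f t) -
          (f ((i : ℝ) / N) - f ((j : ℝ) / N)) / 2) -
        N * ((∫ t in ((i : ℝ) / N)..(((i + 1 : ℕ) : ℝ) / N), f t) -
          (((1 / N / 2 : ℝ)) : ℂ) * (f ((i : ℝ) / N) + f (((i + 1 : ℕ) : ℝ) / N))) := by
      rw [h3]
      have e : (N : ℂ) * (((1 / N / 2 : ℝ)) : ℂ) = 1 / 2 := by
        push_cast
        field_simp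
      rw [mul_sub, ← mul_assoc, e]
      ring
    rw [h6]
    refine (norm_sub_le _ _).trans ?_
    have h7 : ‖(N : ℂ) * ((∫ t in ((i : ℝ) / N)..(((i + 1 : ℕ) : ℝ) / N), f t) -
          (((1 / N / 2 : ℝ)) : ℂ) * (f ((i : ℝ) / N) + f (((i + 1 : ℕ) : ℝ) / N)))‖ ≤
        K / N ^ 2 := by
      rw [norm_mul, Complex.norm_natCast]
      calc _ ≤ (N : ℝ) * (K * (1 / N) ^ 3) := by gcongr
        _ = K / N ^ 2 := by field_simp
    have h8 : (((i + 1 : ℕ) : ℝ) - j) * (K / N ^ 2) =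
        ((i : ℝ) - j) * (K / N ^ 2) + K / N ^ 2 := by
      push_cast
      ring
    rw [h8]
    exact add_le_add ih h7

/-! ### The asymptotics -/

theorem hasDerivAt_gg (x y t : ℝ) :
    HasDerivAt (gg x y) ((4 * π * Real.sin (2 * π * t) : ℝ) : ℂ) t := by
  have h0 : HasDerivAt (fun t : ℝ => 2 * π * t) (2 * π) t := by
    simpa using (hasDerivAt_id t).const_mul (2 * π)
  have h1 : HasDerivAt (fun t : ℝ => 2 * Real.cos (2 * π * t))
      (2 * (-Real.sin (2 * π * t) * (2 * π))) t := (h0.cos).const_mul 2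
  have h2 := (h1.ofReal_comp).const_sub (2 * Complex.cos (x + y * Complex.I))
  have e : gg x y = fun t : ℝ => 2 * Complex.cos (x + y * Complex.I) -
      ((2 * Real.cos (2 * π * t) : ℝ) : ℂ) := by
    funext t
    rw [gg]
    push_cast
    ring
  rw [e]
  refine h2.congr_deriv ?_
  push_cast
  ring

theorem gg_slit {x y : ℝ} (h : 1 < Real.cos x * Real.cosh y) (t : ℝ) :
    gg x y t ∈ Complex.slitPlane := by
  rw [Complex.mem_slitPlane_iff]
  left
  rw [gg_re]
  have := Real.cos_le_one (2 * π * t)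
  linarith

/-- the first derivative -/
noncomputable def f1 (x y t : ℝ) : ℂ := ((4 * π * Real.sin (2 * π * t) : ℝ) : ℂ) / gg x y t

/-- the second derivative -/
noncomputable def f2 (x y t : ℝ) : ℂ :=
  (((8 * π ^ 2 * Real.cos (2 * π * t) : ℝ) : ℂ) * gg x y t -
    ((4 * π * Real.sin (2 * π * t) : ℝ) : ℂ) * ((4 * π * Real.sin (2 * π * t) : ℝ) : ℂ)) /
      gg x y t ^ 2

theorem hasDerivAt_clf {x y : ℝ} (h : 1 < Real.cos x * Real.cosh y) (t : ℝ) :
    HasDerivAt (clf x y) (f1 x y t) t :=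
  (hasDerivAt_gg x y t).clog_real (gg_slit h t)

theorem hasDerivAt_f1 {y : ℝ} (hy : 0 < y) (x t : ℝ) :
    HasDerivAt (f1 x y) (f2 x y t) t := by
  have h0 : HasDerivAt (fun t : ℝ => 2 * π * t) (2 * π) t := by
    simpa using (hasDerivAt_id t).const_mul (2 * π)
  have h1 : HasDerivAt (fun t : ℝ => 4 * π * Real.sin (2 * π * t))
      (4 * π * (Real.cos (2 * π * t) * (2 * π))) t := (h0.sin).const_mul (4 * π)
  have h2 := (h1.ofReal_comp).div (hasDerivAt_gg x y t) (gg_ne hy x t)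
  refine h2.congr_deriv ?_
  rw [f2]
  congr 2
  push_cast
  ring

theorem f2_bound {y : ℝ} (hy : 0 < y) (x t : ℝ) :
    ‖f2 x y t‖ ≤ 8 * π ^ 2 / (2 * (Real.cosh y - 1)) +
      16 * π ^ 2 / (2 * (Real.cosh y - 1)) ^ 2 := by
  have hm := m_pos hy
  have hg := gg_pos hy x t
  have hl := gg_lower x y t
  have e : f2 x y t = ((8 * π ^ 2 * Real.cos (2 * π * t) : ℝ) : ℂ) / gg x y t -
      ((4 * π * Real.sin (2 * π * t) : ℝ) : ℂ) ^ 2 / gg x y t ^ 2 := by
    have := gg_ne hy x t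
    rw [f2]
    field_simp
  rw [e]
  refine (norm_sub_le _ _).trans (add_le_add ?_ ?_)
  · rw [norm_div, Complex.norm_real, Real.norm_eq_abs, abs_mul,
      abs_of_pos (by positivity : (0 : ℝ) < 8 * π ^ 2)]
    have := Real.abs_cos_le_one (2 * π * t)
    calc _ ≤ 8 * π ^ 2 * 1 / (2 * (Real.cosh y - 1)) := by gcongr
      _ = _ := by ring
  · rw [norm_div, norm_pow, norm_pow, Complex.norm_real, Real.norm_eq_abs, abs_mul,
      abs_of_pos (by positivity : (0 : ℝ) < 4 * π)]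
    have := Real.abs_sin_le_one (2 * π * t)
    calc _ ≤ (4 * π * 1) ^ 2 / (2 * (Real.cosh y - 1)) ^ 2 := by gcongr
      _ = _ := by ring

theorem qda : S_QDA := by
  intro y hy i j x α β hij hx hi hj hcos
  set K : ℝ := 8 * π ^ 2 / (2 * (Real.cosh y - 1)) + 16 * π ^ 2 / (2 * (Real.cosh y - 1)) ^ 2
    with hKdef
  have hm := m_pos hy
  have hK0 : 0 ≤ K := by positivity
  have hY : 1 < Real.cosh y := Real.one_lt_cosh.2 hy.ne'
  -- eventually the values are in the slit plane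
  have hsl : ∀ᶠ N in atTop, 1 < Real.cos (x N) * Real.cosh y := by
    have h1 : Tendsto (fun N => Real.cos (x N) * Real.cosh y) atTop
        (𝓝 (Real.cos 0 * Real.cosh y)) :=
      ((Real.continuous_cos.tendsto 0).comp hx).mul_const _
    rw [Real.cos_zero, one_mul] at h1
    exact h1.eventually (lt_mem_nhds hY)
  -- limits of the boundary terms
  have hlim : ∀ (r : ℕ → ℝ) (γ : ℝ), Tendsto r atTop (𝓝 γ) →
      Tendsto (fun N => clf (x N) y (r N)) atTop (𝓝 (clf 0 y γ)) := by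
    intro r γ hr
    have h1 : Tendsto (fun N => gg (x N) y (r N)) atTop (𝓝 (gg 0 y γ)) := by
      have hc : Continuous (fun p : ℝ × ℝ => gg p.1 y p.2) := by
        unfold gg
        fun_prop
      have h3 : Tendsto (fun N => ((x N, r N) : ℝ × ℝ)) atTop (𝓝 ((0 : ℝ), γ)) :=
        hx.prodMk_nhds hr
      have h4 := (hc.tendsto ((0 : ℝ), γ)).comp h3
      simp only [Function.comp_def] at h4
      exact h4
    have h2 : gg 0 y γ ∈ Complex.slitPlane := gg_slit (by rw [Real.cos_zero, one_mul]; exact hY) γ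
    exact h1.clog h2
  have hb : Tendsto (fun N : ℕ => (clf (x N) y ((i N : ℝ) / N) - clf (x N) y ((j N : ℝ) / N)) / 2)
      atTop (𝓝 0) := by
    have h1 := ((hlim _ _ hi).sub (hlim _ _ hj)).div_const 2
    have h2 : clf 0 y α = clf 0 y β := by
      rw [clf, clf, hcos]
    rw [h2, sub_self, zero_div] at h1
    exact h1
  -- the exponent
  have hE : Tendsto (fun N : ℕ => (∑ s ∈ Ioc (j N) (i N), clf (x N) y ((s : ℝ) / N)) -
      (N * ∫ t in ((j N : ℝ) / N)..((i N : ℝ) / N), clf (x N) y t)) atTop (𝓝 0) := by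
    have h1 : Tendsto (fun N : ℕ => (∑ s ∈ Ioc (j N) (i N), clf (x N) y ((s : ℝ) / N)) -
      (N * ∫ t in ((j N : ℝ) / N)..((i N : ℝ) / N), clf (x N) y t) -
      (clf (x N) y ((i N : ℝ) / N) - clf (x N) y ((j N : ℝ) / N)) / 2) atTop (𝓝 0) := by
      apply squeeze_zero_norm' (a := fun N : ℕ => K * (1 / (N : ℝ)))
      · filter_upwards [hij, hsl, eventually_ge_atTop 1] with N h2 h3 h4
        have hN' : (0 : ℝ) < N := by exact_mod_cast h4
        have h5 := trap_sum (hasDerivAt_clf h3) (hasDerivAt_f1 hy (x N)) (f2_bound hy (x N)) N h4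
          (j N) (i N) h2.1
        refine h5.trans ?_
        have h6 : (i N : ℝ) - j N ≤ N := by
          have h7 : (i N : ℝ) ≤ N := by exact_mod_cast h2.2
          have h8 : (0 : ℝ) ≤ j N := Nat.cast_nonneg _
          linarith
        calc ((i N : ℝ) - j N) * (K / N ^ 2) ≤ N * (K / N ^ 2) := by gcongr
          _ = K * (1 / N) := by field_simp
      · have := tendsto_one_div_atTop_nhds_zero_nat (𝕜 := ℝ)
        simpa using this.const_mul K
    have h2 := h1.add hb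
    rw [add_zero] at h2
    refine h2.congr fun N => ?_
    ring
  have hX := (Complex.continuous_exp.tendsto 0).comp hE
  rw [Complex.exp_zero] at hX
  refine hX.congr' ?_
  filter_upwards with N
  rw [Function.comp, Pq_eq, sub_eq_add_neg, Complex.exp_add, Complex.exp_sum]
  congr 1
  refine Finset.prod_congr rfl fun s _ => ?_
  exact Complex.exp_log (gg_ne hy _ _)

end Pool.Agent.Y220.TK
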